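import Mathlib
import Pool.Agent.H383R3.MOMain

set_option autoImplicit false

namespace Pool.Agent.Results.MP_2ae949_nt.OmegaHalf

open Finset Filter Topology

/-- `f` (its values at positive integers) is an MO function: it is multiplicative, the series
`∑ f(n)` converges to `0`, and for every prime `p` the series `∑_{k ≥ 0} f(p^k)` converges to a
nonzero number. -/
structure IsMO (f : ℕ → ℂ) : Prop where
  map_one : f 1 = 1
  map_mul : ∀ m n : ℕ, 0 < m → 0 < n → Nat.Coprime m n → f (m * n) = f m * f n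
  sum_zero : Tendsto (fun N : ℕ => ∑ n ∈ Finset.Icc 1 N, f n) atTop (𝓝 0)
  local_ne_zero : ∀ p : ℕ, p.Prime → ∃ c : ℂ, c ≠ 0 ∧
    Tendsto (fun K : ℕ => ∑ k ∈ Finset.range K, f (p ^ k)) atTop (𝓝 c)

/-- The partial sum `S_f(x) = ∑_{1 ≤ n ≤ x} f(n)`, for real `x`. -/
noncomputable def S (f : ℕ → ℂ) (x : ℝ) : ℂ := ∑ n ∈ Finset.Icc 1 ⌊x⌋₊, f n

theorem result : ∀ f : ℕ → ℂ, IsMO f →
    ((1 / 2 : ℝ) : EReal) ≤
      Filter.limsup (fun x : ℝ => ((x * ‖S f x‖ : ℝ) : EReal)) atTop := by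
  intro f hf
  by_contra hcon
  push Not at hcon
  obtain ⟨c', hc1, hc2⟩ := EReal.lt_iff_exists_real_btwn.mp hcon
  have hc2' : c' < 1 / 2 := by exact_mod_cast hc2
  have hev := Filter.eventually_lt_of_limsup_lt hc1
  obtain ⟨X₀, hX₀⟩ := eventually_atTop.mp hev
  have hX : ∀ x : ℝ, X₀ ≤ x → x * ‖S f x‖ < c' := by
    intro x hx
    exact_mod_cast hX₀ x hx
  have hc0 : 0 < c' := by
    have h1 := hX (max X₀ 0) (le_max_left _ _)
    have h2 : 0 ≤ max X₀ 0 * ‖S f (max X₀ 0)‖ := mul_nonneg (le_max_right _ _) (norm_nonneg _)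
    linarith
  obtain ⟨N₁, hN₁⟩ := exists_nat_ge X₀
  -- bounds at integers
  have hS1 : ∀ n : ℕ, N₁ ≤ n → (n : ℝ) * ‖∑ m ∈ Icc 1 n, f m‖ ≤ c' := by
    intro n hn
    have h1 := hX (n : ℝ) (hN₁.trans (by exact_mod_cast hn))
    simp only [S, Nat.floor_natCast] at h1
    exact h1.le
  have hS2 : ∀ n : ℕ, N₁ ≤ n → ((n : ℝ) + 1) * ‖∑ m ∈ Icc 1 n, f m‖ ≤ c' := by
    intro n hn
    have hnn : (0 : ℝ) ≤ n := Nat.cast_nonneg n
    have h1 : ∀ k : ℕ, ((n : ℝ) + 1 - 1 / ((k : ℝ) + 1)) * ‖∑ m ∈ Icc 1 n, f m‖ ≤ c' := by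
      intro k
      have hk : (0 : ℝ) < (k : ℝ) + 1 := by positivity
      have hk1 : 1 / ((k : ℝ) + 1) ≤ 1 := by
        rw [div_le_one hk]; linarith [Nat.cast_nonneg (α := ℝ) k]
      have hk2 : 0 < 1 / ((k : ℝ) + 1) := by positivity
      have hXn : X₀ ≤ (n : ℝ) := hN₁.trans (by exact_mod_cast hn)
      have h2 := hX ((n : ℝ) + 1 - 1 / ((k : ℝ) + 1)) (by linarith)
      have h3 : ⌊(n : ℝ) + 1 - 1 / ((k : ℝ) + 1)⌋₊ = n := by
        rw [Nat.floor_eq_iff (by linarith)]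
        constructor <;> linarith
      simp only [S, h3] at h2
      exact h2.le
    have h2 : Tendsto (fun k : ℕ => ((n : ℝ) + 1 - 1 / ((k : ℝ) + 1)) * ‖∑ m ∈ Icc 1 n, f m‖) atTop
        (𝓝 (((n : ℝ) + 1 - 0) * ‖∑ m ∈ Icc 1 n, f m‖)) :=
      (tendsto_const_nhds.sub tendsto_one_div_add_atTop_nhds_zero_nat).mul_const _
    rw [sub_zero] at h2
    exact le_of_tendsto' h2 h1
  have hf2 : ∀ n : ℕ, N₁ + 1 ≤ n → (n : ℝ) * ‖f n‖ ≤ 2 * c' := by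
    intro n hn
    obtain ⟨m, rfl⟩ : ∃ m, n = m + 1 := ⟨n - 1, by omega⟩
    have h1 : f (m + 1) = (∑ k ∈ Icc 1 (m + 1), f k) - ∑ k ∈ Icc 1 m, f k := by
      rw [Finset.sum_Icc_succ_top (by omega)]; ring
    have h2 := hS1 (m + 1) (by omega)
    have h3 := hS2 m (by omega)
    have h4 : ‖f (m + 1)‖ ≤ ‖∑ k ∈ Icc 1 (m + 1), f k‖ + ‖∑ k ∈ Icc 1 m, f k‖ := by
      rw [h1]; exact norm_sub_le _ _
    push_cast at h2 ⊢
    have h5 : (0 : ℝ) ≤ (m : ℝ) + 1 := by positivity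
    nlinarith [mul_le_mul_of_nonneg_left h4 h5]
  -- global constant
  set C : ℝ := 2 * c' + ∑ n ∈ range (N₁ + 1), (n : ℝ) * (‖∑ m ∈ Icc 1 n, f m‖ + ‖f n‖) with hC
  have hterm : ∀ n ∈ range (N₁ + 1), 0 ≤ (n : ℝ) * (‖∑ m ∈ Icc 1 n, f m‖ + ‖f n‖) :=
    fun n _ => by positivity
  have hC0 : 0 ≤ C := add_nonneg (by linarith) (Finset.sum_nonneg hterm)
  have hsmall : ∀ n : ℕ, n ≤ N₁ → (n : ℝ) * (‖∑ m ∈ Icc 1 n, f m‖ + ‖f n‖) ≤ C := by
    intro n hn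
    have := Finset.single_le_sum hterm (mem_range.mpr (by omega : n < N₁ + 1))
    linarith
  have hSC : ∀ n : ℕ, 1 ≤ n → ‖∑ m ∈ Icc 1 n, f m‖ ≤ C / n := by
    intro n hn
    have hn0 : (0 : ℝ) < n := by exact_mod_cast hn
    rw [le_div_iff₀ hn0, mul_comm]
    rcases le_or_gt n N₁ with h | h
    · have h1 := hsmall n h
      have h2 : 0 ≤ (n : ℝ) * ‖f n‖ := by positivity
      rw [mul_add] at h1
      linarith
    · have h1 := hS1 n h.le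
      have h2 : 0 ≤ ∑ n ∈ range (N₁ + 1), (n : ℝ) * (‖∑ m ∈ Icc 1 n, f m‖ + ‖f n‖) :=
        Finset.sum_nonneg hterm
      linarith
  have hfC : ∀ n : ℕ, 1 ≤ n → ‖f n‖ ≤ C / n := by
    intro n hn
    have hn0 : (0 : ℝ) < n := by exact_mod_cast hn
    rw [le_div_iff₀ hn0, mul_comm]
    rcases le_or_gt n N₁ with h | h
    · have h1 := hsmall n h
      have h2 : 0 ≤ (n : ℝ) * ‖∑ m ∈ Icc 1 n, f m‖ := by positivity
      rw [mul_add] at h1
      linarith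
    · have h1 := hf2 n (by omega)
      have h2 : 0 ≤ ∑ n ∈ range (N₁ + 1), (n : ℝ) * (‖∑ m ∈ Icc 1 n, f m‖ + ‖f n‖) :=
        Finset.sum_nonneg hterm
      linarith
  refine Pool.Agent.H383R3.MO.main_false f hf.map_one hf.map_mul hf.local_ne_zero C hC0 hSC hfC
    (2 * c') (by linarith) (by linarith) (N₁ + 1) ?_
  intro n hn
  have hn0 : (0 : ℝ) < n := by exact_mod_cast (by omega : 0 < n)
  rw [le_div_iff₀ hn0, mul_comm]
  exact hf2 n hn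

end Pool.Agent.Results.MP_2ae949_nt.OmegaHalf
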